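import Pool.Agent.R217.MT.Ex3

set_option autoImplicit false

open Filter Topology Pool.Agent.R217.MT

namespace Pool.Agent.Results.MP_ee476b_an.RateThree

/-- Q1 has a positive answer: there are an admissible `g`, `A ≠ 0` and `p < 4` such that blow-up
sequences exist and every blow-up sequence satisfies
`‖∇u_k‖² = 4π + A μ_k^{-p} + o(μ_k^{-p})`; explicitly `g(t) = exp((1+t²)^{-1/2}) - 1`, `A = 2π`,
`p = 3`. -/
theorem result :
    (∃ (g : ℝ → ℝ) (A p : ℝ), Adm g ∧ A ≠ 0 ∧ p < 4 ∧ (∃ lam u G, Blow g lam u G) ∧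
      Expansion g A p) ∧
    (Adm gG ∧ (∃ lam u G, Blow gG lam u G) ∧ Expansion gG (2 * Real.pi) 3) :=
  ⟨⟨gG, 2 * Real.pi, 3, main.1, by positivity, by norm_num, main.2.1, main.2.2⟩, main⟩

end Pool.Agent.Results.MP_ee476b_an.RateThree
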